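import Mathlib

/-!
# Odd cycles spanning subgraphs of large chromatic number: the trees over a graph

`Tr V d` are the nodes of a tree of depth `d` over `V`: a node is either a leaf
(reached after `d` steps) or an element of `V` at an earlier step.
`TG H d` is the graph on `Tr V d`: every group of siblings carries a copy of `H`
and each leaf is joined to all its `d` ancestors.
-/

namespace Pool.Agent.H16.OddSpan

/-- The vertices of the tree graph: depth `0` is a single leaf, depth `d+1` is, for every
`a : V`, the node `(a, none)` and a copy of the tree of depth `d`. -/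
def Tr (V : Type) : ℕ → Type
  | 0 => Unit
  | d + 1 => V × Option (Tr V d)

instance instFintypeTr {V : Type} [Fintype V] : (d : ℕ) → Fintype (Tr V d)
  | 0 => inferInstanceAs (Fintype Unit)
  | d + 1 => by
      haveI := instFintypeTr (V := V) d
      exact inferInstanceAs (Fintype (V × Option (Tr V d)))

/-- Leaves of the tree. -/
def isLeaf {V : Type} : (d : ℕ) → Tr V d → Prop
  | 0, _ => True
  | _ + 1, (_, none) => False
  | d + 1, (_, some x) => isLeaf d x

/-- The tree graph over `H`. -/
def TG {V : Type} (H : SimpleGraph V) : (d : ℕ) → SimpleGraph (Tr V d)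
  | 0 => ⊥
  | d + 1 =>
    { Adj := fun p q => match p, q with
        | (a, none), (b, none) => H.Adj a b
        | (a, none), (b, some y) => a = b ∧ isLeaf d y
        | (a, some x), (b, none) => a = b ∧ isLeaf d x
        | (a, some x), (b, some y) => a = b ∧ (TG H d).Adj x y
      symm := by
        constructor
        rintro ⟨a, _ | x⟩ ⟨b, _ | y⟩ h
        · exact SimpleGraph.Adj.symm (G := H) h
        · exact ⟨h.1.symm, h.2⟩
        · exact ⟨h.1.symm, h.2⟩
        · exact ⟨h.1.symm, SimpleGraph.Adj.symm (G := TG H d) h.2⟩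
      loopless := by
        constructor
        rintro ⟨a, _ | x⟩ h
        · exact H.loopless.irrefl a h
        · exact (TG H d).loopless.irrefl x h.2 }

section adj
variable {V : Type} {H : SimpleGraph V} {d : ℕ}

theorem adj_nn {a b : V} :
    (TG H (d + 1)).Adj ((a, none) : V × Option (Tr V d)) ((b, none) : V × Option (Tr V d)) ↔
      H.Adj a b := Iff.rfl

theorem adj_ns {a b : V} {y : Tr V d} :
    (TG H (d + 1)).Adj ((a, none) : V × Option (Tr V d)) ((b, some y) : V × Option (Tr V d)) ↔
      a = b ∧ isLeaf d y := Iff.rfl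

theorem adj_sn {a b : V} {x : Tr V d} :
    (TG H (d + 1)).Adj ((a, some x) : V × Option (Tr V d)) ((b, none) : V × Option (Tr V d)) ↔
      a = b ∧ isLeaf d x := Iff.rfl

theorem adj_ss {a b : V} {x y : Tr V d} :
    (TG H (d + 1)).Adj ((a, some x) : V × Option (Tr V d)) ((b, some y) : V × Option (Tr V d)) ↔
      a = b ∧ (TG H d).Adj x y := Iff.rfl

theorem leaf_n {a : V} : ¬ isLeaf (d + 1) ((a, none) : V × Option (Tr V d)) := id

theorem leaf_s {a : V} {x : Tr V d} :
    isLeaf (d + 1) ((a, some x) : V × Option (Tr V d)) ↔ isLeaf d x := Iff.rfl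

end adj

/-- Every proper colouring by natural numbers takes at least `M` values. -/
def ManyCols {V : Type} (H : SimpleGraph V) (M : ℕ) : Prop :=
  ∀ c : V → ℕ, (∀ a b, H.Adj a b → c a ≠ c b) →
    ∃ S : Finset ℕ, M ≤ S.card ∧ ∀ i ∈ S, ∃ a, c a = i

theorem tree_cols {V : Type} {H : SimpleGraph V} {M : ℕ} (hH : ManyCols H M) (d : ℕ) :
    ∀ (c : Tr V d → ℕ), (∀ x y, (TG H d).Adj x y → c x ≠ c y) →
      ∀ F : Finset ℕ, F.card + d ≤ M → (∀ x, isLeaf d x → c x ∉ F) →
        ∃ S : Finset ℕ, d + 1 ≤ S.card ∧ Disjoint S F ∧ ∀ i ∈ S, ∃ x, c x = i := by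
  induction d with
  | zero =>
    intro c _ F _ hF
    refine ⟨{c ()}, by simp, ?_, ?_⟩
    · simpa using hF () trivial
    · intro i hi
      exact ⟨(), (Finset.mem_singleton.mp hi).symm⟩
  | succ d ih =>
    intro c hc F hFM hF
    obtain ⟨S₀, hS₀, hS₀c⟩ := hH (fun a => c ((a, none) : V × Option (Tr V d)))
      (fun a b hab => hc _ _ (adj_nn.mpr hab))
    have hlt : F.card < S₀.card := by omega
    obtain ⟨i, hi, hiF⟩ := Finset.exists_mem_notMem_of_card_lt_card hlt
    obtain ⟨a, ha⟩ := hS₀c i hi
    obtain ⟨S, hS, hdis, hSc⟩ := ih (fun x => c ((a, some x) : V × Option (Tr V d)))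
      (fun x y hxy => hc _ _ (adj_ss.mpr ⟨rfl, hxy⟩)) (insert i F)
      (by rw [Finset.card_insert_of_notMem hiF]; omega)
      (by
        intro x hx hmem
        rcases Finset.mem_insert.mp hmem with h | h
        · have h1 := hc ((a, none) : V × Option (Tr V d)) ((a, some x) : V × Option (Tr V d))
            (adj_ns.mpr ⟨rfl, hx⟩)
          exact h1 (ha.trans h.symm)
        · exact hF ((a, some x) : V × Option (Tr V d)) (leaf_s.mpr hx) h)
    rw [Finset.disjoint_insert_right] at hdis
    refine ⟨insert i S, ?_, ?_, ?_⟩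
    · rw [Finset.card_insert_of_notMem hdis.1]; omega
    · rw [Finset.disjoint_insert_left]
      exact ⟨hiF, hdis.2⟩
    · intro j hj
      rcases Finset.mem_insert.mp hj with h | h
      · exact ⟨_, ha.trans h.symm⟩
      · obtain ⟨x, hx⟩ := hSc j h
        exact ⟨_, hx⟩

theorem manyCols_TG {V : Type} {H : SimpleGraph V} {M : ℕ} (hH : ManyCols H M) :
    ManyCols (TG H M) (M + 1) := by
  intro c hc
  obtain ⟨S, hS, _, hSc⟩ := tree_cols hH M c hc ∅ (by simp) (by simp)
  exact ⟨S, hS, hSc⟩

end Pool.Agent.H16.OddSpan
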