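import Pool.Agent.H16.OddSpan.Final
import Pool.Prelude.Def_F_c2511cc8

set_option autoImplicit false

/-!
# Odd cycles spanning subgraphs of large chromatic number: a doubly exponential lower bound

For every `k` there is a finite graph `G` with chromatic number at least `2 ^ (2 ^ k)` in which
every cycle and every path spans (chords included) a subgraph of chromatic number at most `k + 6`.
Hence, if the function `f` of the question exists, then `f (k + 7) > 2 ^ (2 ^ k)`.

The graphs: `G₁` is a point, and `G_{m+1}` is a forest of depth `m` in which every group of
siblings carries a copy of `G_m`, together with one new vertex for every branch, joined to the `m`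
vertices of the branch. Then `χ (G_m) ≥ m`. The vertex set `U` of a path in such a graph has the
property that disjoint nonempty parts of `U`, each with at most one neighbour (in `U`) outside
itself and outside a set `W`, are at most `2 |W| + 2` many. Hence only boundedly many elements of
each group of siblings have leaves of `U` below. A weighted colouring lemma (vertices of weight
more than `τ i` get a colour below `i`, where `τ i` is about `2 ^ (- 2 ^ (i - 2))`) is carried
through the construction by induction.
-/

namespace Pool.Agent.H16.OddSpan.DoublyExponential

/-- For every `k` there is a finite graph of chromatic number at least `2 ^ (2 ^ k)` in which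
the vertex set of every cycle and of every path induces a subgraph of chromatic number at most
`k + 6`. -/
theorem result : ∀ k : ℕ, ∃ (n : ℕ) (G : SimpleGraph (Fin n)),
    ((2 ^ 2 ^ k : ℕ) : ℕ∞) ≤ G.chromaticNumber ∧
    (∀ (u : Fin n) (p : G.Walk u u), p.IsCycle →
      (G.induce {x | x ∈ p.support}).chromaticNumber ≤ ((k + 6 : ℕ) : ℕ∞)) ∧
    (∀ (u v : Fin n) (p : G.Walk u v), p.IsPath →
      (G.induce {x | x ∈ p.support}).chromaticNumber ≤ ((k + 6 : ℕ) : ℕ∞)) :=
  Pool.Agent.H16.OddSpan.exists_doubly_exponential

/-- The consequence for the function of the question: a number `N` which works for `k + 7`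
is larger than `2 ^ (2 ^ k)`. -/
theorem lower_bound (k N : ℕ) (h : ∀ (n : ℕ) (G : SimpleGraph (Fin n)),
    (N : ℕ∞) ≤ G.chromaticNumber → Nb10b39f9.HasHighChromaticOddCycle G (k + 7)) :
    2 ^ 2 ^ k < N := by
  by_contra hcon
  obtain ⟨n, G, hG, hc, _⟩ := result k
  have h1 : (N : ℕ∞) ≤ G.chromaticNumber :=
    le_trans (by exact_mod_cast not_lt.mp hcon) hG
  obtain ⟨u, p, hp, _, hk⟩ := h n G h1
  have h2 := hk.trans (hc u p hp)
  have h3 : k + 7 ≤ k + 6 := by exact_mod_cast h2
  omega

end Pool.Agent.H16.OddSpan.DoublyExponential
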