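import Pool.Agent.H16.OddSpan.Main

open Finset

namespace Pool.Agent.H16.OddSpan

theorem numeric (k : ℕ) (hk : 1 ≤ k) :
    (2 / 3 : ℝ) ^ (2 ^ (k + 5 - 2)) * (8 * (((2 ^ 2 ^ k : ℕ) : ℝ)) ^ 3) < 1 := by
  obtain ⟨n, hn⟩ : ∃ n, 2 ^ k = n + 2 := by
    refine ⟨2 ^ k - 2, ?_⟩
    have : 2 ^ 1 ≤ 2 ^ k := Nat.pow_le_pow_right (by norm_num) hk
    omega
  have h1 : 2 ^ (k + 5 - 2) = 8 * (n + 2) := by
    rw [show k + 5 - 2 = k + 3 by omega, pow_add, hn]; ring
  rw [h1, hn]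
  push_cast
  have h0 : ((2 : ℝ) ^ (n + 2)) ^ 3 = (2 ^ 3) ^ (n + 2) := by
    rw [← pow_mul, ← pow_mul, mul_comm]
  rw [pow_mul, h0]
  have h2 : ((2 / 3 : ℝ) ^ 8) ^ (n + 2) * (8 * ((2 : ℝ) ^ 3) ^ (n + 2)) =
      8 * ((2 / 3 : ℝ) ^ 8 * 2 ^ 3) ^ (n + 2) := by
    rw [mul_pow]; ring
  rw [h2, pow_add]
  have h3 : ((2 / 3 : ℝ) ^ 8 * 2 ^ 3) ^ n ≤ 1 := pow_le_one₀ (by norm_num) (by norm_num)
  calc 8 * (((2 / 3 : ℝ) ^ 8 * 2 ^ 3) ^ n * ((2 / 3 : ℝ) ^ 8 * 2 ^ 3) ^ 2)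
      ≤ 8 * (1 * ((2 / 3 : ℝ) ^ 8 * 2 ^ 3) ^ 2) := by gcongr
    _ < 1 := by norm_num

theorem exists_doubly_exponential (k : ℕ) : ∃ n : ℕ, ∃ G : SimpleGraph (Fin n),
    ((2 ^ 2 ^ k : ℕ) : ℕ∞) ≤ G.chromaticNumber ∧
    (∀ (u : Fin n) (p : G.Walk u u), p.IsCycle →
      (G.induce {x | x ∈ p.support}).chromaticNumber ≤ ((k + 6 : ℕ) : ℕ∞)) ∧
    (∀ (u v : Fin n) (p : G.Walk u v), p.IsPath →
      (G.induce {x | x ∈ p.support}).chromaticNumber ≤ ((k + 6 : ℕ) : ℕ∞)) := by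
  rcases Nat.eq_zero_or_pos k with rfl | hk
  · refine ⟨2, ⊤, ?_, ?_, ?_⟩
    · rw [SimpleGraph.chromaticNumber_top]; simp
    · intro u p _
      refine (SimpleGraph.chromaticNumber_le_card).trans ?_
      have : Fintype.card {x | x ∈ p.support} ≤ Fintype.card (Fin 2) :=
        Fintype.card_subtype_le _
      rw [Fintype.card_fin] at this
      exact_mod_cast this.trans (by norm_num)
    · intro u v p _
      refine (SimpleGraph.chromaticNumber_le_card).trans ?_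
      have : Fintype.card {x | x ∈ p.support} ≤ Fintype.card (Fin 2) :=
        Fintype.card_subtype_le _
      rw [Fintype.card_fin] at this
      exact_mod_cast this.trans (by norm_num)
  · obtain ⟨n, G, hG, hspan⟩ := exists_graph (2 ^ 2 ^ k) (k + 5) Nat.one_le_two_pow (by omega)
      (numeric k hk)
    refine ⟨n, G, hG, ?_, ?_⟩
    · intro u p hp
      have hlen : 3 ≤ p.length := hp.three_le_length
      refine hspan (fun i => p.getVert (i + 1)) (p.length - 1) ?_ ?_ _ ?_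
      · intro i j hi hj hij
        have := hp.getVert_injOn (x₁ := i + 1) (x₂ := j + 1)
          ⟨by omega, by omega⟩ ⟨by omega, by omega⟩ hij
        omega
      · intro i hi
        exact p.adj_getVert_succ (i := i + 1) (by omega)
      · intro x hx
        obtain ⟨j, hj, hjl⟩ := SimpleGraph.Walk.mem_support_iff_exists_getVert.mp hx
        rcases Nat.eq_zero_or_pos j with h0 | h0
        · refine ⟨p.length - 1, le_rfl, ?_⟩
          rw [Nat.sub_add_cancel (by omega), SimpleGraph.Walk.getVert_length, ← hj, h0,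
            SimpleGraph.Walk.getVert_zero]
        · exact ⟨j - 1, by omega, by rw [Nat.sub_add_cancel h0]; exact hj⟩
    · intro u v p hp
      refine hspan p.getVert p.length ?_ ?_ _ ?_
      · intro i j hi hj hij
        exact hp.getVert_injOn hi hj hij
      · intro i hi
        exact p.adj_getVert_succ hi
      · intro x hx
        obtain ⟨j, hj, hjl⟩ := SimpleGraph.Walk.mem_support_iff_exists_getVert.mp hx
        exact ⟨j, hjl, hj⟩

end Pool.Agent.H16.OddSpan
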