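import Pool.Agent.H16.OddSpan.Step

/-!
# The sequence of graphs and the final estimates
-/

open Finset

namespace Pool.Agent.H16.OddSpan

/-- The thresholds `y, y, y^2, y^4, y^8, ...`. -/
noncomputable def thr (y : ℝ) (i : ℕ) : ℝ := if i ≤ 1 then y else y ^ (2 ^ (i - 2))

theorem thr_one (y : ℝ) : thr y 1 = y := by simp [thr]

theorem thr_ge {y : ℝ} {i : ℕ} (h : 2 ≤ i) : thr y i = y ^ (2 ^ (i - 2)) := by
  simp [thr, show ¬ i ≤ 1 by omega]

theorem good_step {V : Type} [Fintype V] {H : SimpleGraph V} {S r : ℕ} {ε y y' : ℝ} (M s : ℕ)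
    (hε0 : 0 < ε) (hε1 : ε < 1) (hS : 1 ≤ S) (hr : 2 ≤ r) (hH : Good H S r (thr y))
    (hyy : y = (1 - ε) * y') (hy1 : 1 / 2 ≤ y') (hy2 : y' ≤ 1)
    (hyr : y ^ (2 ^ (r - 2)) < ε / (2 * S)) (hsM : s + M ≤ S) :
    Good (TG H M) s r (thr y') := by
  classical
  have hy'0 : 0 ≤ y' := by linarith
  have hyn : ∀ n : ℕ, 1 ≤ n → y ^ n ≤ (1 - ε) * y' ^ n := by
    intro n hn
    rw [hyy, mul_pow]
    have h1 : (1 - ε) ^ n ≤ 1 - ε := by
      calc (1 - ε) ^ n ≤ (1 - ε) ^ 1 :=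
            pow_le_pow_of_le_one (by linarith) (by linarith) hn
        _ = 1 - ε := pow_one _
    exact mul_le_mul_of_nonneg_right h1 (pow_nonneg hy'0 n)
  intro U hU w hw hwsum
  obtain ⟨c, hc1, hc2, _, hc4⟩ := tree_step (S := S) (r := r) (τ := thr y) (tp := thr y')
    (Θ := fun i => if i ≤ 1 then 1 else thr y' i) (ε := ε) hε0 hε1 hS (by omega) hH
    (by rw [thr_ge hr]; exact hyr)
    (by
      intro i
      unfold thr
      split_ifs
      · exact hy'0
      · exact pow_nonneg hy'0 _)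
    (by
      intro i hi _
      rw [thr_ge hi, thr_ge hi]
      exact hyn _ Nat.one_le_two_pow)
    (by simp)
    (by
      intro f hf1 hfr
      rcases eq_or_lt_of_le hf1 with h | h
      · rw [← h]
        simp only [le_refl, if_true, thr_one, one_mul]
        rw [if_neg (by omega), thr_ge (by norm_num), hyy]
        norm_num
      · rw [if_neg (by omega), if_neg (by omega), thr_ge h, thr_ge h, thr_ge (by omega)]
        have h1 : 2 ^ (f + 1 - 2) = 2 ^ (f - 2) + 2 ^ (f - 2) := by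
          rw [show f + 1 - 2 = (f - 2) + 1 by omega]; ring
        rw [h1, pow_add]
        have h2 := hyn (2 ^ (f - 2)) Nat.one_le_two_pow
        have h3 : 0 ≤ y' ^ 2 ^ (f - 2) := pow_nonneg hy'0 _
        calc y' ^ 2 ^ (f - 2) * y ^ 2 ^ (f - 2)
            ≤ y' ^ 2 ^ (f - 2) * ((1 - ε) * y' ^ 2 ^ (f - 2)) :=
              mul_le_mul_of_nonneg_left h2 h3
          _ = (1 - ε) * (y' ^ 2 ^ (f - 2) * y' ^ 2 ^ (f - 2)) := by ring)
    (by
      intro i j hi hij _
      rw [if_neg (by omega), thr_ge hi, thr_ge (by omega)]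
      exact pow_le_pow_of_le_one hy'0 hy2 (Nat.pow_le_pow_right (by norm_num) (by omega)))
    M s hsM U hU w hw 1 hwsum le_rfl ∅ (by simp) (by intro i _ _ _; simp) (by simp)
  by_cases hx : ∃ x ∈ U, y' < w x
  · obtain ⟨x₀, hx₀U, hx₀⟩ := hx
    have hc0 : c x₀ < 2 := hc4 2 le_rfl hr x₀ hx₀U (by rw [thr_ge le_rfl]; simpa using hx₀)
    have huniq : ∀ x, y' < w x → x = x₀ := by
      intro x hx
      by_contra hne
      have h1 : w x + w x₀ ≤ ∑ y, w y := by
        rw [← Finset.sum_pair hne]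
        exact Finset.sum_le_sum_of_subset_of_nonneg (Finset.subset_univ _)
          (fun y _ _ => hw y)
      linarith
    have hsw : ∀ i j : ℕ, 2 ≤ j → i < j → Equiv.swap 0 (c x₀) i < j := by
      intro i j hj hij
      rcases Equiv.swap_apply_eq_iff.mp (rfl : Equiv.swap 0 (c x₀) i = _) with _
      by_cases h1 : i = 0
      · rw [h1, Equiv.swap_apply_left]; omega
      · by_cases h2 : i = c x₀
        · rw [h2, Equiv.swap_apply_right]; omega
        · rw [Equiv.swap_apply_of_ne_of_ne h1 h2]; exact hij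
    refine ⟨fun x => Equiv.swap 0 (c x₀) (c x), ?_, ?_, ?_⟩
    · intro x hx y hy hxy h
      exact hc1 x hx y hy hxy ((Equiv.swap 0 (c x₀)).injective h)
    · intro x
      have := hsw (c x) (r + 1) (by omega) (by have := hc2 x; omega)
      change Equiv.swap 0 (c x₀) (c x) ≤ r
      omega
    · intro i hi1 hir x hx hxi
      rcases eq_or_lt_of_le hi1 with h | h
      · rw [← h, thr_one] at hxi
        rw [huniq x hxi, ← h]
        simp
      · exact hsw (c x) i h (hc4 i h hir x hx hxi)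
  · push Not at hx
    refine ⟨c, hc1, hc2, ?_⟩
    intro i hi1 hir x hxU hxi
    rcases eq_or_lt_of_le hi1 with h | h
    · rw [← h, thr_one] at hxi
      exact absurd hxi (not_lt.mpr (hx x hxU))
    · exact hc4 i h hir x hxU hxi

/-- A finite graph, bundled. -/
structure FG where
  V : Type
  fin : Fintype V
  G : SimpleGraph V

/-- The sequence of graphs: a point, and the tree of depth `m+1` over the previous one. -/
def GG : ℕ → FG
  | 0 => ⟨Unit, inferInstance, ⊥⟩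
  | m + 1 => ⟨Tr (GG m).V (m + 1), @instFintypeTr _ (GG m).fin (m + 1), TG (GG m).G (m + 1)⟩

theorem manyCols_GG : ∀ m, ManyCols (GG m).G (m + 1)
  | 0 => by
      intro c _
      exact ⟨{c ()}, by simp, fun i hi => ⟨(), (Finset.mem_singleton.mp hi).symm⟩⟩
  | m + 1 => manyCols_TG (manyCols_GG m)

theorem good_GG {M r : ℕ} {ε : ℝ} (hε0 : 0 < ε) (hε1 : ε < 1) (hr : 2 ≤ r)
    (hM : 3 / 4 ≤ (1 - ε) ^ M)
    (hyr : (2 / 3 : ℝ) ^ (2 ^ (r - 2)) < ε / (2 * (M * M : ℕ))) :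
    ∀ m, m ≤ M → ∀ s, s + m * M ≤ M * M →
      @Good (GG m).V (GG m).fin (GG m).G s r (thr (1 / 2 / (1 - ε) ^ m)) := by
  intro m
  induction m with
  | zero =>
    intro _ s _ U _ w _ _
    refine ⟨fun _ => 0, ?_, fun _ => Nat.zero_le _, ?_⟩
    · intro x _ y _ hxy
      exact absurd hxy id
    · intro i hi _ x _ _
      exact hi
  | succ m ih =>
    intro hmM s hs
    have h1ε : 0 < 1 - ε := by linarith
    have hpow : ∀ j, j ≤ M → 3 / 4 ≤ (1 - ε) ^ j := by
      intro j hj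
      exact hM.trans (pow_le_pow_of_le_one h1ε.le (by linarith) hj)
    have hle : ∀ j, j ≤ M → 1 / 2 / (1 - ε) ^ j ≤ 2 / 3 := by
      intro j hj
      rw [div_le_iff₀ (by positivity)]
      linarith [hpow j hj]
    let _ := (GG m).fin
    have hS1 : s + (m + 1) + m * M ≤ M * M := by
      have : (m + 1) * M = m * M + M := by ring
      omega
    refine good_step (S := s + (m + 1)) (y := 1 / 2 / (1 - ε) ^ m) (m + 1) s hε0 hε1 (by omega) hr
      (ih (by omega) (s + (m + 1)) hS1) ?_ ?_ ?_ ?_ le_rfl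
    · rw [pow_succ]
      field_simp
    · rw [le_div_iff₀ (by positivity)]
      have : (1 - ε) ^ (m + 1) ≤ 1 := pow_le_one₀ h1ε.le (by linarith)
      linarith
    · linarith [hle (m + 1) hmM]
    · refine lt_of_le_of_lt ?_ (lt_of_lt_of_le hyr ?_)
      · exact pow_le_pow_left₀ (by positivity) (hle m (by omega)) _
      · apply div_le_div_of_nonneg_left hε0.le (by positivity)
        have : s + (m + 1) ≤ M * M := by omega
        have h2 : ((s + (m + 1) : ℕ) : ℝ) ≤ ((M * M : ℕ) : ℝ) := by exact_mod_cast this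
        linarith

theorem span_le {V : Type} [Fintype V] {H : SimpleGraph V} {r n : ℕ} {τ : ℕ → ℝ}
    (hg : Good H 1 r τ) (f : Fin n → V) (hf : Function.Injective f)
    (v : ℕ → Fin n) (N : ℕ) (hinj : ∀ i j, i ≤ N → j ≤ N → v i = v j → i = j)
    (hadj : ∀ i, i < N → (H.comap f).Adj (v i) (v (i + 1)))
    (X : Set (Fin n)) (hX : ∀ x ∈ X, ∃ i, i ≤ N ∧ v i = x) :
    ((H.comap f).induce X).chromaticNumber ≤ ((r + 1 : ℕ) : ℕ∞) := by
  obtain ⟨c, hc1, hc2, _⟩ := hg {x | ∃ i, i ≤ N ∧ f (v i) = x}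
    (QQ_path H (fun i => f (v i)) N (fun i j hi hj hij => hinj i j hi hj (hf hij))
      (fun i hi => hadj i hi))
    (fun _ => 0) (fun _ => le_rfl) (by simp)
  rw [SimpleGraph.chromaticNumber_le_iff_colorable]
  refine ⟨SimpleGraph.Coloring.mk (fun x => (⟨c (f x.1), Nat.lt_succ_of_le (hc2 _)⟩ : Fin (r + 1)))
    ?_⟩
  rintro ⟨x, hx⟩ ⟨y, hy⟩ hxy h
  obtain ⟨i, hi, rfl⟩ := hX x hx
  obtain ⟨j, hj, rfl⟩ := hX y hy
  exact hc1 _ ⟨i, hi, rfl⟩ _ ⟨j, hj, rfl⟩ hxy (by simpa using h)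

theorem chromatic_ge {V : Type} {H : SimpleGraph V} {M n : ℕ} (hM : ManyCols H M)
    (e : V ≃ Fin n) : (M : ℕ∞) ≤ (H.comap e.symm).chromaticNumber := by
  rw [SimpleGraph.le_chromaticNumber_iff_colorable]
  rintro m ⟨C⟩
  obtain ⟨S, hS, hSc⟩ := hM (fun a => (C (e a) : ℕ)) (by
    intro a b hab h
    refine C.valid (v := e a) (w := e b) ?_ (Fin.ext h)
    simpa using hab)
  have : S ⊆ range m := by
    intro i hi
    obtain ⟨a, rfl⟩ := hSc i hi
    exact mem_range.mpr (C (e a)).2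
  have := Finset.card_le_card this
  rw [card_range] at this
  exact_mod_cast hS.trans this

/-- The main construction. -/
theorem exists_graph (M r : ℕ) (hM : 1 ≤ M) (hr : 2 ≤ r)
    (h : (2 / 3 : ℝ) ^ (2 ^ (r - 2)) * (8 * (M : ℝ) ^ 3) < 1) :
    ∃ n : ℕ, ∃ G : SimpleGraph (Fin n), (M : ℕ∞) ≤ G.chromaticNumber ∧
      ∀ (v : ℕ → Fin n) (N : ℕ), (∀ i j, i ≤ N → j ≤ N → v i = v j → i = j) →
        (∀ i, i < N → G.Adj (v i) (v (i + 1))) →
        ∀ X : Set (Fin n), (∀ x ∈ X, ∃ i, i ≤ N ∧ v i = x) →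
          (G.induce X).chromaticNumber ≤ ((r + 1 : ℕ) : ℕ∞) := by
  obtain ⟨m, rfl⟩ : ∃ m, M = m + 1 := ⟨M - 1, by omega⟩
  let _ := (GG m).fin
  have hMpos : (0 : ℝ) < ((m + 1 : ℕ) : ℝ) := by positivity
  set ε : ℝ := 1 / (4 * ((m + 1 : ℕ) : ℝ)) with hε
  have hε0 : 0 < ε := by positivity
  have hεM : ((m + 1 : ℕ) : ℝ) * ε = 1 / 4 := by
    rw [hε]; field_simp
  have hε1 : ε ≤ 1 / 4 := by
    rw [← hεM]
    have : (1 : ℝ) ≤ ((m + 1 : ℕ) : ℝ) := by exact_mod_cast hM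
    nlinarith
  have hpow : 3 / 4 ≤ (1 - ε) ^ (m + 1) := by
    have := one_add_mul_le_pow (a := -ε) (by linarith) (m + 1)
    have h2 : 1 + ((m + 1 : ℕ) : ℝ) * -ε = 3 / 4 := by
      rw [mul_neg, hεM]; norm_num
    rw [h2] at this
    simpa [sub_eq_add_neg] using this
  have hg := good_GG (M := m + 1) (r := r) (ε := ε) hε0 (by linarith) hr hpow (by
    rw [lt_div_iff₀ (by positivity)]
    have h1 : (2 / 3 : ℝ) ^ 2 ^ (r - 2) * (2 * (((m + 1) * (m + 1) : ℕ) : ℝ)) =
        ((2 / 3 : ℝ) ^ (2 ^ (r - 2)) * (8 * ((m + 1 : ℕ) : ℝ) ^ 3)) * ε := by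
      rw [hε]
      push_cast
      field_simp
      ring
    rw [h1]
    calc _ < 1 * ε := mul_lt_mul_of_pos_right h hε0
      _ = ε := one_mul _) m (by omega) 1 (by
        have : (m + 1) * (m + 1) = m * (m + 1) + (m + 1) := by ring
        omega)
  let e := Fintype.equivFin (GG m).V
  refine ⟨Fintype.card (GG m).V, (GG m).G.comap e.symm, chromatic_ge (manyCols_GG m) e, ?_⟩
  intro v N hinj hadj X hX
  exact span_le hg e.symm e.symm.injective v N hinj hadj X hX

end Pool.Agent.H16.OddSpan
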