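import Pool.Agent.H16.OddSpan.Path

/-!
# The weighted colouring lemma and its preservation by the tree construction
-/

open Finset

namespace Pool.Agent.H16.OddSpan

/-- An injection of the naturals which lists the elements of `F` first. -/
theorem exists_sigma (F : Finset ℕ) :
    ∃ σ : ℕ → ℕ, Function.Injective σ ∧ (∀ j, F.card ≤ j → σ j ∉ F) ∧
      (∀ j, j < F.card → σ j ∈ F) ∧ ∀ i, F ⊆ range i → ∀ j, j < i → σ j < i := by
  classical
  have hinf : {n : ℕ | n ∉ F}.Infinite := (Finset.finite_toSet F).infinite_compl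
  let σ : ℕ → ℕ := fun j => if h : j < F.card then F.orderEmbOfFin rfl ⟨j, h⟩
    else Nat.nth (fun n => n ∉ F) (j - F.card)
  have h1 : ∀ j (h : j < F.card), σ j = F.orderEmbOfFin rfl ⟨j, h⟩ := by
    intro j h; simp [σ, h]
  have h2 : ∀ j, F.card ≤ j → σ j = Nat.nth (fun n => n ∉ F) (j - F.card) := by
    intro j h; simp [σ, Nat.not_lt.mpr h]
  have hin : ∀ j, j < F.card → σ j ∈ F := by
    intro j h
    rw [h1 j h]
    exact Finset.orderEmbOfFin_mem _ _ _
  have hout : ∀ j, F.card ≤ j → σ j ∉ F := by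
    intro j h
    rw [h2 j h]
    exact Nat.nth_mem_of_infinite hinf _
  refine ⟨σ, ?_, hout, hin, ?_⟩
  · intro i j hij
    rcases Nat.lt_or_ge i F.card with hi | hi <;> rcases Nat.lt_or_ge j F.card with hj | hj
    · rw [h1 i hi, h1 j hj] at hij
      have := (F.orderEmbOfFin rfl).injective hij
      simpa using congrArg Fin.val this
    · exact absurd (hij ▸ hin i hi) (hout j hj)
    · exact absurd (hij ▸ hin j hj) (hout i hi)
    · rw [h2 i hi, h2 j hj] at hij
      have := Nat.nth_injective hinf hij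
      omega
  · intro i hFi j hj
    rcases Nat.lt_or_ge j F.card with h | h
    · exact mem_range.mp (hFi (hin j h))
    · rw [h2 j h]
      apply Nat.nth_lt_of_lt_count
      rw [Nat.count_eq_card_filter_range]
      have h3 : (range i).filter (fun n => n ∉ F) = range i \ F := by
        ext x; simp
      rw [h3, Finset.card_sdiff_of_subset hFi, card_range]
      omega

/-- The weighted colouring property: all sets with property `Q` have a proper colouring with
colours `0, ..., r` in which vertices of weight more than `τ i` get a colour below `i`. -/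
def Good {V : Type} [Fintype V] (H : SimpleGraph V) (s r : ℕ) (τ : ℕ → ℝ) : Prop :=
  ∀ U : Set V, QQ H s U → ∀ w : V → ℝ, (∀ x, 0 ≤ w x) → (∑ x, w x) ≤ 1 →
    ∃ c : V → ℕ, (∀ x ∈ U, ∀ y ∈ U, H.Adj x y → c x ≠ c y) ∧ (∀ x, c x ≤ r) ∧
      ∀ i, 1 ≤ i → i ≤ r → ∀ x ∈ U, τ i < w x → c x < i

theorem sum_Tr {V : Type} [Fintype V] {d : ℕ} (w : Tr V (d + 1) → ℝ) :
    ∑ p, w p = ∑ a : V, (w ((a, none) : V × Option (Tr V d)) +
      ∑ x : Tr V d, w ((a, some x) : V × Option (Tr V d))) := by
  have h1 : ∑ p, w p = ∑ p : V × Option (Tr V d), w p := rfl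
  rw [h1, Fintype.sum_prod_type]
  refine Finset.sum_congr rfl (fun a _ => ?_)
  rw [Fintype.sum_option]

theorem tree_step {V : Type} [Fintype V] {H : SimpleGraph V} {S r : ℕ} {τ tp Θ : ℕ → ℝ} {ε : ℝ}
    (hε0 : 0 < ε) (hε1 : ε < 1) (hS : 1 ≤ S) (hr : 1 ≤ r)
    (hH : Good H S r τ)
    (hτr : τ r < ε / (2 * S))
    (htp : ∀ i, 0 ≤ tp i)
    (hC2 : ∀ i, 2 ≤ i → i ≤ r → τ i ≤ (1 - ε) * tp i)
    (hΘ1 : 1 ≤ Θ 1)
    (hΘ : ∀ f, 1 ≤ f → f ≤ r → Θ f * τ f ≤ (1 - ε) * Θ (f + 1))
    (hC1 : ∀ i j, 2 ≤ i → i ≤ j → j ≤ r → Θ j ≤ tp i)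
    (d : ℕ) : ∀ s, s + d ≤ S → ∀ U : Set (Tr V d), QQ (TG H d) s U → ∀ w : Tr V d → ℝ,
      (∀ x, 0 ≤ w x) → ∀ Ω : ℝ, (∑ x, w x) ≤ Ω → Ω ≤ 1 → ∀ F : Finset ℕ,
      F ⊆ range r → (∀ i, 2 ≤ i → i ≤ r → tp i < Ω → F ⊆ range i) → Ω ≤ Θ F.card →
      ∃ c : Tr V d → ℕ, (∀ x ∈ U, ∀ y ∈ U, (TG H d).Adj x y → c x ≠ c y) ∧
        (∀ x, c x ≤ r) ∧ (∀ x ∈ U, isLeaf d x → c x ∉ F) ∧
        ∀ i, 2 ≤ i → i ≤ r → ∀ x ∈ U, tp i < w x → c x < i := by
  classical
  induction d with
  | zero =>
    intro s _ U _ w hw Ω hwΩ hΩ1 F hFr hI1 hI2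
    obtain ⟨j, hj, hjF⟩ : ∃ j, j ∈ range (F.card + 1) ∧ j ∉ F :=
      Finset.exists_mem_notMem_of_card_lt_card (by simp)
    have hFc : F.card ≤ r := by simpa using Finset.card_le_card hFr
    have hj' : j ≤ F.card := by simpa [Nat.lt_succ_iff] using hj
    refine ⟨fun _ => j, ?_, ?_, ?_, ?_⟩
    · intro x _ y _ hxy
      exact absurd hxy (by simp [TG])
    · intro _
      change j ≤ r
      omega
    · intro _ _ _; exact hjF
    · intro i hi2 hir x _ hx
      change j < i
      by_contra hcon
      have h1 : i ≤ F.card := by omega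
      have h2 : Θ F.card ≤ tp i := hC1 i F.card hi2 h1 hFc
      have h3 : w x ≤ ∑ y, w y := Finset.single_le_sum (fun y _ => hw y) (Finset.mem_univ x)
      linarith
  | succ d ih =>
    intro s hsd U hU w hw Ω hwΩ hΩ1 F hFr hI1 hI2
    have hSpos : (0 : ℝ) < S := by exact_mod_cast hS
    -- weights of branches
    let W : V → ℝ := fun a => w ((a, none) : V × Option (Tr V d)) +
      ∑ x : Tr V d, w ((a, some x) : V × Option (Tr V d))
    have hW0 : ∀ a, 0 ≤ W a := fun a =>
      add_nonneg (hw _) (Finset.sum_nonneg (fun x _ => hw _))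
    have hWsum : ∑ a, W a ≤ Ω := by
      rw [sum_Tr] at hwΩ
      exact hwΩ
    have hΩ0 : 0 ≤ Ω := le_trans (Finset.sum_nonneg (fun a _ => hW0 a)) hWsum
    have hWΩ : ∀ a, W a ≤ Ω := fun a =>
      (Finset.single_le_sum (fun y _ => hW0 y) (Finset.mem_univ a)).trans hWsum
    -- relevant elements
    let R : Finset V := Finset.univ.filter (fun a => a ∈ relS U)
    have hRmem : ∀ a, a ∈ R ↔ a ∈ relS U := by intro a; simp [R]
    have hRcard : R.card ≤ 2 * s := card_rel hU R (fun a ha => (hRmem a).mp ha)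
    have hRS : (R.card : ℝ) ≤ 2 * S := by
      have : R.card ≤ 2 * S := by omega
      exact_mod_cast this
    -- group weights
    let q : V → ℝ := fun a => (1 - ε) * (W a / Ω) + (if a ∈ R then ε / (2 * S) else 0)
    have hε2 : 0 ≤ 1 - ε := by linarith
    have hεS : 0 < ε / (2 * S) := by positivity
    have hq0 : ∀ a, 0 ≤ q a := by
      intro a
      have h1 : 0 ≤ W a / Ω := div_nonneg (hW0 a) hΩ0
      have h2 : 0 ≤ (if a ∈ R then ε / (2 * S) else 0 : ℝ) := by split_ifs <;> positivity
      have h3 := mul_nonneg hε2 h1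
      simp only [q]
      linarith
    have hqsum : ∑ a, q a ≤ 1 := by
      simp only [q]
      rw [Finset.sum_add_distrib, ← Finset.mul_sum, ← Finset.sum_div,
        Finset.sum_ite_mem, Finset.univ_inter, Finset.sum_const, nsmul_eq_mul]
      have h1 : (∑ a, W a) / Ω ≤ 1 := by
        rcases eq_or_lt_of_le hΩ0 with h | h
        · rw [← h]; simp
        · rw [div_le_one h]; exact hWsum
      have h2 : (R.card : ℝ) * (ε / (2 * S)) ≤ ε := by
        rw [← mul_div_assoc, div_le_iff₀ (by positivity)]
        nlinarith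
      nlinarith
    obtain ⟨c', hc'1, hc'2, hc'3⟩ := hH (topS U) ((QQ_top hU).mono (by omega)) q hq0 hqsum
    obtain ⟨σ, hσinj, hσout, hσin, hσlt⟩ := exists_sigma F
    have hWq : ∀ a, (1 - ε) * (W a / Ω) ≤ q a := by
      intro a
      have h2 : 0 ≤ (if a ∈ R then ε / (2 * S) else 0 : ℝ) := by split_ifs <;> positivity
      simp only [q]
      linarith
    -- heavy elements of the top group get small colours
    have hheavy : ∀ a ∈ topS U, ∀ i, 2 ≤ i → i ≤ r → tp i < W a → c' a < i := by
      intro a ha i hi2 hir hi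
      refine hc'3 i (by omega) hir a ha ?_
      have hΩpos : 0 < Ω := lt_of_lt_of_le (lt_of_le_of_lt (htp i) hi) (hWΩ a)
      have h1 : W a ≤ W a / Ω := by
        rw [le_div_iff₀ hΩpos]
        nlinarith [hW0 a]
      have h2 : (1 - ε) * tp i < (1 - ε) * (W a / Ω) := by
        apply mul_lt_mul_of_pos_left _ (by linarith)
        linarith
      linarith [hWq a, hC2 i hi2 hir]
    have hrel : ∀ a ∈ topS U, a ∈ R → c' a < r := by
      intro a ha haR
      refine hc'3 r hr le_rfl a ha ?_
      have h1 : 0 ≤ (1 - ε) * (W a / Ω) := mul_nonneg hε2 (div_nonneg (hW0 a) hΩ0)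
      have : q a = (1 - ε) * (W a / Ω) + ε / (2 * S) := by simp only [q]; rw [if_pos haR]
      rw [this]
      linarith
    -- forbidden colours in the branches
    let FF : V → Finset ℕ := fun a => if a ∈ topS U ∧ a ∈ R then insert (σ (c' a)) F else F
    have hFFsub : ∀ a, F ⊆ FF a := by
      intro a
      simp only [FF]
      split_ifs
      · exact Finset.subset_insert _ _
      · exact Finset.Subset.refl _
    have hbranch : ∀ a, ∃ c : Tr V d → ℕ,
        (∀ x ∈ subS U a, ∀ y ∈ subS U a, (TG H d).Adj x y → c x ≠ c y) ∧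
        (∀ x, c x ≤ r) ∧ (∀ x ∈ subS U a, isLeaf d x → c x ∉ FF a) ∧
        ∀ i, 2 ≤ i → i ≤ r → ∀ x ∈ subS U a,
          tp i < w ((a, some x) : V × Option (Tr V d)) → c x < i := by
      intro a
      refine ih (s + 1) (by omega) (subS U a) (QQ_sub hU a)
        (fun x => w ((a, some x) : V × Option (Tr V d))) (fun x => hw _) (W a) ?_
        ((hWΩ a).trans hΩ1) (FF a) ?_ ?_ ?_
      · simp only [W]
        linarith [hw ((a, none) : V × Option (Tr V d))]
      · simp only [FF]
        split_ifs with h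
        · intro y hy
          rcases Finset.mem_insert.mp hy with h1 | h1
          · rw [h1]
            exact mem_range.mpr (hσlt r hFr _ (hrel a h.1 h.2))
          · exact hFr h1
        · exact hFr
      · intro i hi2 hir hi
        have hFi : F ⊆ range i := hI1 i hi2 hir (lt_of_lt_of_le hi (hWΩ a))
        simp only [FF]
        split_ifs with h
        · intro y hy
          rcases Finset.mem_insert.mp hy with h1 | h1
          · rw [h1]
            exact mem_range.mpr (hσlt i hFi _ (hheavy a h.1 i hi2 hir hi))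
          · exact hFi h1
        · exact hFi
      · simp only [FF]
        split_ifs with h
        · rcases Nat.lt_or_ge (c' a) F.card with h1 | h1
          · rw [Finset.insert_eq_of_mem (hσin _ h1)]
            exact (hWΩ a).trans hI2
          · rw [Finset.card_insert_of_notMem (hσout _ h1)]
            rcases Nat.eq_zero_or_pos F.card with h0 | h0
            · rw [h0]
              exact ((hWΩ a).trans hΩ1).trans hΘ1
            · have hfr : F.card ≤ r := h1.trans (hc'2 a)
              have h2 : ¬ (τ F.card < q a) := by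
                intro h3
                have := hc'3 F.card h0 hfr a h.1 h3
                omega
              have h3 : (1 - ε) * (W a / Ω) ≤ τ F.card := (hWq a).trans (not_lt.mp h2)
              have h4 : (1 - ε) * W a ≤ τ F.card * Ω := by
                rcases eq_or_lt_of_le hΩ0 with h | h
                · have : W a = 0 := le_antisymm (by rw [h]; exact hWΩ a) (hW0 a)
                  rw [this, ← h]; simp
                · rw [← mul_div_assoc, div_le_iff₀ h] at h3
                  exact h3
              have h5 : 0 ≤ τ F.card := by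
                refine le_trans ?_ h3
                exact mul_nonneg hε2 (div_nonneg (hW0 a) hΩ0)
              have h6 : τ F.card * Ω ≤ Θ F.card * τ F.card := by
                rw [mul_comm]
                exact mul_le_mul_of_nonneg_right hI2 h5
              have h7 := hΘ F.card h0 hfr
              have h8 : (1 - ε) * W a ≤ (1 - ε) * Θ (F.card + 1) := by linarith
              exact le_of_mul_le_mul_left h8 (by linarith)
        · exact (hWΩ a).trans hI2
    choose cb hcb1 hcb2 hcb3 hcb4 using hbranch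
    let c : Tr V (d + 1) → ℕ := fun p => match (p : V × Option (Tr V d)) with
      | (a, none) => σ (c' a)
      | (a, some x) => cb a x
    have hcn : ∀ a, c ((a, none) : V × Option (Tr V d)) = σ (c' a) := fun a => rfl
    have hcs : ∀ a x, c ((a, some x) : V × Option (Tr V d)) = cb a x := fun a x => rfl
    have hns : ∀ a y, ((a, none) : V × Option (Tr V d)) ∈ U →
        ((a, some y) : V × Option (Tr V d)) ∈ U → isLeaf d y → σ (c' a) ≠ cb a y := by
      intro a y h1 h2 h3 h4
      have haR : a ∈ R := (hRmem a).mpr ⟨y, h2, h3⟩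
      have h5 := hcb3 a y h2 h3
      simp only [FF] at h5
      rw [if_pos ⟨h1, haR⟩] at h5
      exact h5 (by rw [← h4]; exact Finset.mem_insert_self _ _)
    refine ⟨c, ?_, ?_, ?_, ?_⟩
    · rintro ⟨a, _ | x⟩ hp ⟨b, _ | y⟩ hq hpq
      · rw [hcn, hcn]
        intro h
        exact hc'1 a hp b hq hpq (hσinj h)
      · obtain ⟨rfl, hl⟩ := hpq
        rw [hcn, hcs]
        exact hns a y hp hq hl
      · obtain ⟨rfl, hl⟩ := hpq
        rw [hcn, hcs]
        exact (hns a x hq hp hl).symm
      · obtain ⟨rfl, hxy⟩ := hpq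
        rw [hcs, hcs]
        exact hcb1 a x hp y hq hxy
    · rintro ⟨a, _ | x⟩
      · rw [hcn]
        have h1 : F ⊆ range (r + 1) := hFr.trans (Finset.range_subset_range.mpr (by omega))
        have := hσlt (r + 1) h1 (c' a) (by have := hc'2 a; omega)
        omega
      · rw [hcs]; exact hcb2 a x
    · rintro ⟨a, _ | x⟩ hp hl
      · exact absurd hl leaf_n
      · rw [hcs]
        intro h
        exact hcb3 a x hp hl (hFFsub a h)
    · rintro i hi2 hir ⟨a, _ | x⟩ hp hi
      · rw [hcn]
        have h1 : w ((a, none) : V × Option (Tr V d)) ≤ W a := by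
          simp only [W]
          have : 0 ≤ ∑ x : Tr V d, w ((a, some x) : V × Option (Tr V d)) :=
            Finset.sum_nonneg (fun x _ => hw _)
          linarith
        have h2 : tp i < W a := lt_of_lt_of_le hi h1
        exact hσlt i (hI1 i hi2 hir (lt_of_lt_of_le h2 (hWΩ a))) _ (hheavy a hp i hi2 hir h2)
      · rw [hcs]; exact hcb4 a i hi2 hir x hp hi

end Pool.Agent.H16.OddSpan
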